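import Pool.Agent.Q146.FAF.Circ

/-!
# The area of surfaces whose boundary distances are bounded below by a profile
-/

set_option autoImplicit false

open Finset Real MeasureTheory Filter Topology Set

namespace Pool.Agent.Q146.FAF

open Pool.Agent.H115R3.Filling Pool.Agent.Q146.FVC Pool.Agent.Q146.FAC

variable {F : ℝ → ℝ}

section
variable {M : Type} [MetricSpace M]

/-- extension of `F (dist θ ·)` -/
noncomputable def extF (F : ℝ → ℝ) (β : AddCircle (2 * π) → M) (θ : AddCircle (2 * π)) (x : M) :
    ℝ :=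
  ⨅ t : AddCircle (2 * π), (F (dist θ t) + dist (β t) x)

theorem extF_bdd (hF : Profile F) (β : AddCircle (2 * π) → M) (θ : AddCircle (2 * π)) (x : M) :
    BddBelow (Set.range fun t : AddCircle (2 * π) => (F (dist θ t) + dist (β t) x)) :=
  ⟨0, by
    rintro _ ⟨t, rfl⟩
    exact add_nonneg (hF.nonneg dist_nonneg) dist_nonneg⟩

theorem extF_boundary (hF : Profile F) {β : AddCircle (2 * π) → M}
    (hβ : ∀ x y, F (dist x y) ≤ dist (β x) (β y)) (θ s : AddCircle (2 * π)) :
    extF F β θ (β s) = F (dist θ s) := by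
  unfold extF
  apply le_antisymm
  · refine (ciInf_le (extF_bdd hF β θ (β s)) s).trans ?_
    simp
  · apply le_ciInf
    intro t
    have h1 := hβ t s
    have h2 := hF.mono (dist_triangle θ t s)
    have h3 := hF.sub (dist θ t) (dist t s) dist_nonneg dist_nonneg
    linarith

theorem extF_lip (hF : Profile F) (β : AddCircle (2 * π) → M) (θ : AddCircle (2 * π)) (x y : M) :
    |extF F β θ x - extF F β θ y| ≤ dist x y := by
  have key : ∀ x y : M, extF F β θ x ≤ extF F β θ y + dist x y := by
    intro x y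
    unfold extF
    rw [← sub_le_iff_le_add]
    apply le_ciInf
    intro t
    have h1 := ciInf_le (extF_bdd hF β θ x) t
    have h2 := dist_triangle (β t) y x
    rw [dist_comm y x] at h2
    linarith
  rw [abs_le]
  constructor
  · have := key y x
    rw [dist_comm] at this
    linarith
  · have := key x y
    linarith

/-- the boundary distances are bounded below by `F` of the distances of the circle -/
def LongF (F : ℝ → ℝ) (bd : AddCircle (2 * π) → M) : Prop :=
  ∀ x y : AddCircle (2 * π), F (dist x y) ≤ dist (bd x) (bd y)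

variable (S : OrientedSurface M)

/-- Lower bound with sampling error. -/
theorem area_lowerF (hF : Profile F) (hS : LongF F S.boundary) (K : Finset ℕ)
    (hK0 : ∀ k ∈ K, 0 < k) (N : ℕ) (hKN : ∀ k ∈ K, k < N) (hN : 0 < N) :
    ∑ k ∈ K, (π * k * cf F k ^ 2 - 8 * π ^ 2 * (1 + π * k) * (2 + |cf F k| * k) / N)
      ≤ S.area := by
  have hNr : (0 : ℝ) < N := by exact_mod_cast hN
  have hK : ∀ k ∈ K, 0 < k ∧ k < N := fun k hk => ⟨hK0 k hk, hKN k hk⟩
  -- the extended functions
  set f : ℕ → M → ℝ := fun j => extF F S.boundary (((π * j / N : ℝ)) : AddCircle (2 * π)) with hf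
  have hFb : ∀ j (t : ℝ), f j (S.boundary (t : AddCircle (2 * π))) = sampF F N t j := by
    intro j t
    simp only [hf, sampF]
    rw [extF_boundary hF hS, dist_eq_rho]
  have hFl : ∀ i j, SegLip (S.metric i) (fun p => f j (S.chart i p)) := by
    intro i j p hp q hq
    refine (extF_lip hF _ _ _ _).trans ?_
    rw [dist_comm]
    exact S.dist_le i p hp q hq
  have hlim := fun i => square_limit (S.metric i) N hN K hK (fun j p => f j (S.chart i p))
    (hFl i)
  choose L hL1 hL2 using hlim
  -- the sum over all faces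
  have hsum : Tendsto (fun n : ℕ => ∑ i, ∑ k ∈ K,
      ∑ c ∈ (Finset.range n ×ˢ Finset.range n : Finset (ℕ × ℕ)),
        cellSum (fun p => fc N (fun j => f j (S.chart i p)) k)
          (fun p => fs N (fun j => f j (S.chart i p)) k) n c.1 c.2) atTop (𝓝 (∑ i, L i)) :=
    tendsto_finsetSum _ (fun i _ => hL2 i)
  have hLle : ∑ i, L i ≤ S.area := Finset.sum_le_sum (fun i _ => hL1 i)
  refine le_trans ?_ hLle
  -- rewrite as loop sums
  set α : ℕ → ℝ → ℝ := fun k t => fc N (sampF F N t) k with hα
  set β : ℕ → ℝ → ℝ := fun k t => fs N (sampF F N t) k with hβ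
  have hrew : ∀ n : ℕ, 0 < n → ∑ i, ∑ k ∈ K,
      ∑ c ∈ (Finset.range n ×ˢ Finset.range n : Finset (ℕ × ℕ)),
        cellSum (fun p => fc N (fun j => f j (S.chart i p)) k)
          (fun p => fs N (fun j => f j (S.chart i p)) k) n c.1 c.2
      = ∑ k ∈ K, loopSum S.brk (α k) (β k) n / 2 := by
    intro n hn
    rw [Finset.sum_comm]
    apply Finset.sum_congr rfl
    intro k _
    have e1 : ∀ i, ∑ c ∈ (Finset.range n ×ˢ Finset.range n : Finset (ℕ × ℕ)),
        cellSum (fun p => fc N (fun j => f j (S.chart i p)) k)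
          (fun p => fs N (fun j => f j (S.chart i p)) k) n c.1 c.2
        = (∑ s : Fin 4, edge (fun t => fc N (fun j => f j (S.chart i (side s t))) k)
            (fun t => fs N (fun j => f j (S.chart i (side s t))) k) n) / 2 :=
      fun i => cells_eq _ _ hn
    simp_rw [e1]
    rw [← Finset.sum_div]
    congr 1
    have e2 := sum_sides S (fun x => fc N (fun j => f j x) k) (fun x => fs N (fun j => f j x) k) n
    rw [← Finset.univ_product_univ, Finset.sum_product] at e2
    simp only at e2
    rw [e2]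
    unfold loopSum
    apply Finset.sum_congr rfl
    intro l _
    have e3 : ∀ t : ℝ, (fun j => f j (S.boundary (t : AddCircle (2 * π)))) = sampF F N t := by
      intro t
      funext j
      exact hFb j t
    simp only [e3, hα, hβ]
  have hsum2 : Tendsto (fun n : ℕ => ∑ k ∈ K, loopSum S.brk (α k) (β k) n / 2) atTop
      (𝓝 (∑ i, L i)) := by
    refine hsum.congr' ?_
    filter_upwards [eventually_gt_atTop 0] with n hn using hrew n hn
  -- the exact loops
  set c : ℕ → ℝ := fun k => cf F k with hc
  have hexact : Tendsto (fun n : ℕ => ∑ k ∈ K,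
      (loopSum S.brk (fun t => c k * cos (k * t)) (fun t => c k * sin (k * t)) n / 2
        - 8 * π ^ 2 * (1 + π * k) * (2 + |cf F k| * k) / N)) atTop
      (𝓝 (∑ k ∈ K, (c k ^ 2 * k * (S.brk (Fin.last S.arcs) - S.brk 0) / 2
        - 8 * π ^ 2 * (1 + π * k) * (2 + |cf F k| * k) / N))) :=
    tendsto_finsetSum _ (fun k _ => ((loopSum_exact S.brk (c k) k).div_const 2).sub_const _)
  have hval : ∑ k ∈ K, (c k ^ 2 * k * (S.brk (Fin.last S.arcs) - S.brk 0) / 2
        - 8 * π ^ 2 * (1 + π * k) * (2 + |cf F k| * k) / N)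
      = ∑ k ∈ K, (π * k * cf F k ^ 2 - 8 * π ^ 2 * (1 + π * k) * (2 + |cf F k| * k) / N) := by
    apply Finset.sum_congr rfl
    intro k hk
    rw [brk_diff]
    simp only [hc]
    ring
  rw [hval] at hexact
  refine le_of_tendsto_of_tendsto hexact hsum2 ?_
  filter_upwards [eventually_gt_atTop 0] with n hn
  apply Finset.sum_le_sum
  intro k hk
  have hkpos : (1 : ℝ) ≤ k := by exact_mod_cast (hK k hk).1
  set η : ℝ := 2 * π * (1 + π * k) / N with hη
  have hη0 : 0 ≤ η := by positivity
  -- periodicity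
  have hsper : ∀ j, sampF F N (S.brk (Fin.last S.arcs)) j = sampF F N (S.brk 0) j := by
    intro j
    unfold sampF
    rw [S.brk_last, S.brk_zero, sub_zero]
    have := rho_periodic (π * j / N - 2 * π)
    rw [← this]
    congr 2
    ring
  have hαper : α k (S.brk (Fin.last S.arcs)) = α k (S.brk 0) := by
    simp only [hα]
    congr 1
    funext j
    exact hsper j
  have hβper : β k (S.brk (Fin.last S.arcs)) = β k (S.brk 0) := by
    simp only [hβ]
    congr 1
    funext j
    exact hsper j
  have hcosper : c k * cos (k * S.brk (Fin.last S.arcs)) = c k * cos (k * S.brk 0) := by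
    rw [S.brk_last, S.brk_zero, mul_zero, cos_zero, cos_nat_mul_two_pi]
  have hsinper : c k * sin (k * S.brk (Fin.last S.arcs)) = c k * sin (k * S.brk 0) := by
    rw [S.brk_last, S.brk_zero, mul_zero, sin_zero]
    have : sin (k * (2 * π)) = 0 := by
      have := sin_nat_mul_pi (2 * k)
      push_cast at this
      rw [← this]
      congr 1
      ring
    rw [this]
  -- closeness
  have hclose1 : ∀ t, |α k t - c k * cos (k * t)| ≤ η := fun t => fc_sampF hF hN t
  have hclose2 : ∀ t, |β k t - c k * sin (k * t)| ≤ η := fun t => fs_sampF hF hN t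
  -- Lipschitz bounds
  set Λ : ℝ := 2 + |cf F k| * k with hΛ
  have hck0 : 0 ≤ |cf F k| * k := by positivity
  have hβlip : ∀ s t, |β k s - β k t| ≤ Λ * |s - t| := by
    intro s t
    have h1 : |β k s - β k t| ≤ 2 * |s - t| := by
      apply fs_diff_le hN
      intro j _
      unfold sampF
      have := G_lip hF (π * j / N - s) (π * j / N - t)
      have e : π * j / N - s - (π * j / N - t) = -(s - t) := by ring
      rwa [e, abs_neg] at this
    refine h1.trans (mul_le_mul_of_nonneg_right (by rw [hΛ]; linarith) (abs_nonneg _))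
  have hcoslip : ∀ s t, |c k * cos (k * s) - c k * cos (k * t)| ≤ Λ * |s - t| := by
    intro s t
    rw [← mul_sub, abs_mul]
    calc |c k| * |cos (k * s) - cos (k * t)| ≤ |c k| * |k * s - k * t| :=
          mul_le_mul_of_nonneg_left (abs_cos_sub_cos_le _ _) (abs_nonneg _)
      _ = |c k| * k * |s - t| := by
          rw [← mul_sub, abs_mul, Nat.abs_cast, mul_assoc]
      _ ≤ Λ * |s - t| := mul_le_mul_of_nonneg_right (by
          rw [hΛ]
          change |cf F k| * k ≤ 2 + |cf F k| * k
          linarith) (abs_nonneg _)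
  -- decomposition
  have hdec1 : loopSum S.brk (α k) (β k) n
      = loopSum S.brk (fun t => c k * cos (k * t)) (β k) n
        + loopSum S.brk (fun t => α k t - c k * cos (k * t)) (β k) n := by
    rw [← loopSum_add_left]
    congr 1
    funext t
    ring
  have hdec2 : loopSum S.brk (fun t => c k * cos (k * t)) (β k) n
      = loopSum S.brk (fun t => c k * cos (k * t)) (fun t => c k * sin (k * t)) n
        + loopSum S.brk (fun t => c k * cos (k * t)) (fun t => β k t - c k * sin (k * t)) n := by
    rw [← loopSum_add_right]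
    congr 1
    funext t
    ring
  have hb1 := loopSum_small S.brk S.brk_strictMono
    (fun t => α k t - c k * cos (k * t)) (β k) (by simp only [hαper, hcosper]) hβper η Λ
    hclose1 hη0 hβlip hn
  have hb2 := loopSum_small S.brk S.brk_strictMono
    (fun t => β k t - c k * sin (k * t)) (fun t => c k * cos (k * t))
    (by simp only [hβper, hsinper]) hcosper η Λ
    hclose2 hη0 hcoslip hn
  rw [loopSum_antisymm, abs_neg] at hb2
  rw [brk_diff] at hb1 hb2
  have hb1' := (abs_le.mp hb1).1
  have hb2' := (abs_le.mp hb2).1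
  have hη2 : 8 * π ^ 2 * (1 + π * k) * Λ / N = 4 * π * η * Λ := by
    rw [hη]; ring
  have hη3 : 2 * η * Λ * (2 * π) = 4 * π * η * Λ := by ring
  rw [hη3] at hb1' hb2'
  rw [hη2, hdec1, hdec2]
  linarith

/-- Lower bound by a finite sum. -/
theorem area_lowerF' (hF : Profile F) (hS : LongF F S.boundary) (K : Finset ℕ)
    (hK0 : ∀ k ∈ K, 0 < k) : ∑ k ∈ K, π * k * cf F k ^ 2 ≤ S.area := by
  have h1 : Tendsto (fun N : ℕ => ∑ k ∈ K, (π * k * cf F k ^ 2
      - 8 * π ^ 2 * (1 + π * k) * (2 + |cf F k| * k) / (N : ℝ))) atTop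
      (𝓝 (∑ k ∈ K, (π * k * cf F k ^ 2 - 0))) :=
    tendsto_finsetSum _ (fun k _ =>
      (tendsto_const_div_atTop_nhds_zero_nat _).const_sub _)
  simp only [sub_zero] at h1
  refine le_of_tendsto h1 ?_
  obtain ⟨B, hB⟩ := K.bddAbove
  filter_upwards [eventually_gt_atTop B, eventually_gt_atTop 0] with N hN hN0
  exact area_lowerF S hF hS K hK0 N (fun k hk => lt_of_le_of_lt (hB hk) hN) hN0

end

section
variable {M : Type} [MetricSpace M] {h : M → ℝ}

/-- `h` is `1`-Lipschitz, bounded below by a positive constant on the boundary circle, and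
`h x + h y ≥ F (dist x y)` for all points `x`, `y` of the circle. -/
structure HeightF (F : ℝ → ℝ) (h : M → ℝ) (bd : AddCircle (2 * Real.pi) → M) : Prop where
  lip : LipschitzWith 1 h
  pos : ∃ c : ℝ, 0 < c ∧ ∀ x, c ≤ h (bd x)
  sum : ∀ x y : AddCircle (2 * Real.pi), F (dist x y) ≤ h (bd x) + h (bd y)

theorem longF_col (hF : Profile F) (S : NearSurface M h) (hS : LongF F S.boundary)
    (hh : HeightF F h S.boundary)
    {t η c c0 : ℝ} (ht : 0 < t) (hη : 0 < η) (hη1 : η ≤ 1) (hc : 0 < c)
    (hc0 : ∀ x, c0 ≤ h (S.boundary x)) (htc : t < c0) (hcc : c * (c0 - t) = c0) :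
    @LongF (Col fun q => h q - t) (colS (lip_sub hh.lip t) c hc) F
      (@OrientedSurface.boundary (Col fun q => h q - t) (colS (lip_sub hh.lip t) c hc)
        (toOriented S hh.lip ht hη hη1 hc)) := by
  intro x y
  change F (dist x y) ≤ c * dC (fun q => h q - t) (pj (fun q => h q - t) (S.boundary x))
    (pj (fun q => h q - t) (S.boundary y))
  have h1 := hS x y
  have h2 := hh.sum x y
  have h3 := hc0 x
  have h4 := hc0 y
  have hd0 : 0 ≤ F (dist x y) := hF.nonneg dist_nonneg
  have hc1 : 1 ≤ c := by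
    by_contra hcon
    push Not at hcon
    have : c * (c0 - t) < 1 * c0 := mul_lt_mul'' hcon (by linarith) hc.le (by linarith)
    linarith
  have key : F (dist x y) / c ≤ dC (fun q => h q - t) (pj (fun q => h q - t) (S.boundary x))
      (pj (fun q => h q - t) (S.boundary y)) := by
    refine le_dC_pj _ _ ?_ ?_ (by change 0 < h (S.boundary x) - t; linarith)
      (by change 0 < h (S.boundary y) - t; linarith)
    · rw [div_le_iff₀ hc]
      nlinarith
    · rw [div_le_iff₀ hc]
      -- `(h x - t + (h y - t)) c ≥ h x + h y`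
      have h5 : (h (S.boundary x) - t) * c ≥ h (S.boundary x) := by
        have : (h (S.boundary x) - t) * c - h (S.boundary x) =
            (h (S.boundary x) - c0) * (c - 1) + (c * (c0 - t) - c0) := by ring
        have h6 := mul_nonneg (sub_nonneg.2 h3) (sub_nonneg.2 hc1)
        linarith
      have h6 : (h (S.boundary y) - t) * c ≥ h (S.boundary y) := by
        have : (h (S.boundary y) - t) * c - h (S.boundary y) =
            (h (S.boundary y) - c0) * (c - 1) + (c * (c0 - t) - c0) := by ring
        have h6 := mul_nonneg (sub_nonneg.2 h4) (sub_nonneg.2 hc1)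
        linarith
      nlinarith
  rw [div_le_iff₀ hc] at key
  linarith

/-- **the reduction** -/
theorem reduceF (hF : Profile F) {A : ℝ}
    (H : ∀ (M : Type) [MetricSpace M] (S : OrientedSurface M), LongF F S.boundary → A ≤ S.area)
    (S : NearSurface M h) (hS : LongF F S.boundary) (hh : HeightF F h S.boundary) :
    A ≤ S.posArea := by
  obtain ⟨c0, hc0, hc0'⟩ := hh.pos
  have key : ∀ n : ℕ, A ≤ (((n : ℝ) + 2) / (n + 1)) ^ 2 *
      (S.posArea + (1 / ((n : ℝ) + 2)) ^ 2 * S.area) := by
    intro n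
    have hn : (0 : ℝ) ≤ n := Nat.cast_nonneg n
    have ht : 0 < c0 / ((n : ℝ) + 2) := by positivity
    have hη : 0 < 1 / ((n : ℝ) + 2) := by positivity
    have hη1 : 1 / ((n : ℝ) + 2) ≤ 1 := by
      rw [div_le_one (by positivity)]; linarith
    have hc : 0 < ((n : ℝ) + 2) / (n + 1) := by positivity
    have htc : c0 / ((n : ℝ) + 2) < c0 := by
      rw [div_lt_iff₀ (by positivity)]
      nlinarith
    have hcc : ((n : ℝ) + 2) / (n + 1) * (c0 - c0 / ((n : ℝ) + 2)) = c0 := by
      field_simp
      ring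
    have h1 := @H _ (colS (lip_sub hh.lip (c0 / ((n : ℝ) + 2))) (((n : ℝ) + 2) / (n + 1)) hc)
      (toOriented S hh.lip ht hη hη1 hc)
      (longF_col hF S hS hh ht hη hη1 hc hc0' htc hcc)
    exact h1.trans (area_le S hh.lip ht hη hη1 hc)
  have t1 : Tendsto (fun n : ℕ => 1 / ((n : ℝ) + 1)) atTop (𝓝 0) :=
    tendsto_one_div_add_atTop_nhds_zero_nat
  have t2 : Tendsto (fun n : ℕ => 1 / ((n : ℝ) + 2)) atTop (𝓝 0) := by
    have h1 := t1.comp (tendsto_add_atTop_nat 1)
    refine h1.congr fun n => ?_
    simp only [Function.comp_apply]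
    push_cast
    ring
  have t3 : Tendsto (fun n : ℕ => ((n : ℝ) + 2) / (n + 1)) atTop (𝓝 1) := by
    have h1 := t1.const_add 1
    rw [add_zero] at h1
    refine h1.congr fun n => ?_
    have hn : (0 : ℝ) ≤ n := Nat.cast_nonneg n
    field_simp
    ring
  have t4 : Tendsto (fun n : ℕ => (((n : ℝ) + 2) / (n + 1)) ^ 2 *
      (S.posArea + (1 / ((n : ℝ) + 2)) ^ 2 * S.area)) atTop
      (𝓝 (1 ^ 2 * (S.posArea + 0 ^ 2 * S.area))) :=
    (t3.pow 2).mul (((t2.pow 2).mul_const _).const_add _)
  have h5 := ge_of_tendsto' t4 key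
  simpa using h5

/-- **the energy bound** -/
theorem energyF (hF : Profile F) (S : NearSurface M h) (hS : LongF F S.boundary)
    (hh : HeightF F h S.boundary) :
    Summable (fun k : ℕ => π * k * cf F k ^ 2) ∧
      ∑' k : ℕ, π * k * cf F k ^ 2 ≤ S.posArea := by
  have h0 : ∀ k : ℕ, 0 ≤ π * k * cf F k ^ 2 := fun k => by positivity
  have h1 : ∀ K : Finset ℕ, ∑ k ∈ K, π * k * cf F k ^ 2 ≤ S.posArea := by
    intro K
    have h2 : ∑ k ∈ K, π * k * cf F k ^ 2 = ∑ k ∈ K.filter (0 < ·), π * k * cf F k ^ 2 := by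
      rw [Finset.sum_filter]
      refine Finset.sum_congr rfl fun k _ => ?_
      split_ifs with hk
      · rfl
      · have : k = 0 := by omega
        rw [this]
        simp
    rw [h2]
    exact reduceF hF (fun M _ S hS => area_lowerF' S hF hS _ fun k hk =>
      (Finset.mem_filter.1 hk).2) S hS hh
  have hs : Summable (fun k : ℕ => π * k * cf F k ^ 2) :=
    summable_of_sum_le h0 h1
  exact ⟨hs, hs.tsum_le_of_sum_le h1⟩

end

/-! ### The profile `min (t, ρ)` -/

theorem profile_min {ρ : ℝ} (hρ : 0 ≤ ρ) : Profile fun t => min t ρ where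
  cont := continuous_id.min continuous_const
  mono := fun _ _ h => min_le_min_right ρ h
  zero := min_eq_left hρ
  sub := fun a b ha hb => by
    rcases min_choice a ρ with h | h <;> rcases min_choice b ρ with h' | h' <;> simp only [h, h']
    · exact min_le_left _ _
    · exact (min_le_right _ _).trans (by linarith)
    · exact (min_le_right _ _).trans (by linarith)
    · exact (min_le_right _ _).trans (by linarith)
  le := fun _ _ => min_le_left _ _

theorem cf_min {ρ : ℝ} (hρ : 0 ≤ ρ) (hρ' : ρ ≤ π) {k : ℕ} (hk : 0 < k) :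
    cf (fun t => min t ρ) k = -(2 / (π * k ^ 2) * (1 - cos (k * ρ))) := by
  have hk0 : (k : ℝ) ≠ 0 := by exact_mod_cast hk.ne'
  unfold cf
  have hcont : ∀ a b : ℝ, IntervalIntegrable
      (fun t => min t ρ * cos (k * t)) volume a b := fun a b =>
    Continuous.intervalIntegrable (by fun_prop) a b
  rw [← intervalIntegral.integral_add_adjacent_intervals (hcont 0 ρ) (hcont ρ π)]
  have e1 : ∫ t in (0 : ℝ)..ρ, min t ρ * cos (k * t) = ∫ t in (0 : ℝ)..ρ, t * cos (k * t) := by
    refine intervalIntegral.integral_congr fun t ht => ?_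
    rw [uIcc_of_le hρ] at ht
    rw [min_eq_left ht.2]
  have e2 : ∫ t in ρ..π, min t ρ * cos (k * t) = ∫ t in ρ..π, ρ * cos (k * t) := by
    refine intervalIntegral.integral_congr fun t ht => ?_
    rw [uIcc_of_le hρ'] at ht
    rw [min_eq_right ht.1]
  have i1 : ∫ t in (0 : ℝ)..ρ, t * cos (k * t) =
      ρ * sin (k * ρ) / k + cos (k * ρ) / k ^ 2 - 1 / k ^ 2 := by
    have h2 : ∀ t ∈ Set.uIcc (0 : ℝ) ρ, HasDerivAt
        (fun t : ℝ => t * sin (k * t) / k + cos (k * t) / k ^ 2) (t * cos (k * t)) t := by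
      intro t _
      have h3 : HasDerivAt (fun t : ℝ => (k : ℝ) * t) k t := by
        simpa using (hasDerivAt_id t).const_mul (k : ℝ)
      have h4 := ((hasDerivAt_id t).mul h3.sin).div_const (k : ℝ)
      have h5 := h3.cos.div_const ((k : ℝ) ^ 2)
      refine (h4.add h5).congr_deriv ?_
      simp only [id]
      field_simp
      ring
    rw [intervalIntegral.integral_eq_sub_of_hasDerivAt h2
      (Continuous.intervalIntegrable (by fun_prop) _ _)]
    simp
  have i2 : ∫ t in ρ..π, ρ * cos (k * t) = -(ρ * sin (k * ρ) / k) := by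
    have h2 : ∀ t ∈ Set.uIcc ρ π, HasDerivAt (fun t : ℝ => ρ * sin (k * t) / k)
        (ρ * cos (k * t)) t := by
      intro t _
      have h3 : HasDerivAt (fun t : ℝ => (k : ℝ) * t) k t := by
        simpa using (hasDerivAt_id t).const_mul (k : ℝ)
      have h4 := (h3.sin.const_mul ρ).div_const (k : ℝ)
      refine h4.congr_deriv ?_
      field_simp
    rw [intervalIntegral.integral_eq_sub_of_hasDerivAt h2
      (Continuous.intervalIntegrable (by fun_prop) _ _)]
    rw [sin_nat_mul_pi]
    simp
  rw [e1, e2, i1, i2]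
  have : π ≠ 0 := pi_ne_zero
  field_simp
  ring

end Pool.Agent.Q146.FAF
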