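import Pool.Agent.Q146.FAC.Main
import Pool.Agent.H115R3.Filling.Main

/-!
# Fourier coefficients of a function of the distance on the circle
-/

set_option autoImplicit false

open Finset Real MeasureTheory Filter Topology Set

namespace Pool.Agent.Q146.FAF

open Pool.Agent.H115R3.Filling

/-- A continuous, nondecreasing, subadditive function `F` with `F 0 = 0` and `F a ≤ a`. -/
structure Profile (F : ℝ → ℝ) : Prop where
  cont : Continuous F
  mono : Monotone F
  zero : F 0 = 0
  sub : ∀ a b : ℝ, 0 ≤ a → 0 ≤ b → F (a + b) ≤ F a + F b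
  le : ∀ a : ℝ, 0 ≤ a → F a ≤ a

/-- the Fourier coefficient `(2 / π) ∫₀^π F(t) cos (k t) dt` -/
noncomputable def cf (F : ℝ → ℝ) (k : ℕ) : ℝ :=
  2 / π * ∫ t in (0 : ℝ)..π, F t * cos (k * t)

variable {F : ℝ → ℝ}

theorem Profile.nonneg (hF : Profile F) {a : ℝ} (ha : 0 ≤ a) : 0 ≤ F a := by
  rw [← hF.zero]; exact hF.mono ha

theorem Profile.lip (hF : Profile F) {a b : ℝ} (ha : 0 ≤ a) (hb : 0 ≤ b) :
    |F a - F b| ≤ |a - b| := by
  wlog hab : b ≤ a with H
  · rw [abs_sub_comm (F a), abs_sub_comm a]
    exact H hF hb ha (le_of_not_ge hab)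
  have h1 := hF.sub b (a - b) hb (by linarith)
  have h2 := hF.le (a - b) (by linarith)
  have h3 := hF.mono hab
  rw [show b + (a - b) = a by ring] at h1
  rw [abs_of_nonneg (by linarith), abs_of_nonneg (by linarith)]
  linarith

theorem G_cont (hF : Profile F) : Continuous fun x => F (rho x) := hF.cont.comp rho_continuous

theorem G_lip (hF : Profile F) (x y : ℝ) : |F (rho x) - F (rho y)| ≤ |x - y| :=
  (hF.lip (rho_nonneg _) (rho_nonneg _)).trans (rho_sub_le x y)

theorem G_abs (hF : Profile F) (x : ℝ) : |F (rho x)| ≤ π := by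
  rw [abs_of_nonneg (hF.nonneg (rho_nonneg _))]
  exact (hF.le _ (rho_nonneg _)).trans (rho_le _)

theorem int_reflect (F H : ℝ → ℝ) :
    ∫ x in π..(2 * π), F (rho x) * H x = ∫ x in (0 : ℝ)..π, F (rho x) * H (2 * π - x) := by
  have h := intervalIntegral.integral_comp_sub_left (a := 0) (b := π)
    (fun x => F (rho x) * H x) (2 * π)
  rw [sub_zero, show 2 * π - π = π by ring] at h
  rw [← h]
  apply intervalIntegral.integral_congr
  intro x _
  simp only
  rw [rho_reflect]

theorem IcF (hF : Profile F) (k : ℕ) :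
    ∫ x in (0 : ℝ)..(2 * π), F (rho x) * cos (k * x) = π * cf F k := by
  have hint : ∀ a b : ℝ, IntervalIntegrable (fun x => F (rho x) * cos (k * x)) volume a b := by
    intro a b
    apply Continuous.intervalIntegrable
    exact (G_cont hF).mul (by fun_prop)
  rw [← intervalIntegral.integral_add_adjacent_intervals (hint 0 π) (hint π (2 * π)),
    int_reflect F (fun x => cos (k * x))]
  have h1 : ∀ x, cos (k * (2 * π - x)) = cos (k * x) := by
    intro x
    rw [mul_sub, cos_nat_mul_two_pi_sub]
  simp_rw [h1]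
  have h2 : ∫ x in (0 : ℝ)..π, F (rho x) * cos (k * x) = ∫ x in (0 : ℝ)..π, F x * cos (k * x) := by
    refine intervalIntegral.integral_congr fun x hx => ?_
    rw [uIcc_of_le pi_pos.le] at hx
    rw [rho_eq_self hx.1 hx.2]
  rw [h2]
  unfold cf
  have : π ≠ 0 := pi_ne_zero
  field_simp
  ring

theorem IsF (hF : Profile F) (k : ℕ) :
    ∫ x in (0 : ℝ)..(2 * π), F (rho x) * sin (k * x) = 0 := by
  have hint : ∀ a b : ℝ, IntervalIntegrable (fun x => F (rho x) * sin (k * x)) volume a b := by
    intro a b
    apply Continuous.intervalIntegrable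
    exact (G_cont hF).mul (by fun_prop)
  rw [← intervalIntegral.integral_add_adjacent_intervals (hint 0 π) (hint π (2 * π)),
    int_reflect F (fun x => sin (k * x))]
  have h1 : ∀ x, sin (k * (2 * π - x)) = -sin (k * x) := by
    intro x
    rw [mul_sub, sin_nat_mul_two_pi_sub]
  simp_rw [h1, mul_neg]
  rw [intervalIntegral.integral_neg]
  ring

theorem Ic_shiftF (hF : Profile F) (k : ℕ) (t : ℝ) :
    ∫ x in (0 : ℝ)..(2 * π), F (rho (x - t)) * cos (k * x) = π * cf F k * cos (k * t) := by
  have h1 : ∫ x in (0 : ℝ)..(2 * π), F (rho (x - t)) * cos (k * x)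
      = ∫ x in (-t)..(2 * π - t), F (rho x) * cos (k * (x + t)) := by
    have := intervalIntegral.integral_comp_sub_right (a := 0) (b := 2 * π)
      (fun x => F (rho x) * cos (k * (x + t))) t
    rw [zero_sub] at this
    rw [← this]
    apply intervalIntegral.integral_congr
    intro x _
    simp
  have hper : Function.Periodic (fun x => F (rho x) * cos (k * (x + t))) (2 * π) := by
    intro x
    simp only
    rw [rho_periodic x]
    congr 1
    have : (k : ℝ) * (x + 2 * π + t) = k * (x + t) + k * (2 * π) := by ring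
    rw [this, cos_add_nat_mul_two_pi]
  have h2 := hper.intervalIntegral_add_eq (-t) 0
  rw [h1, show 2 * π - t = -t + 2 * π by ring, h2, zero_add]
  have h3 : ∀ x, F (rho x) * cos (k * (x + t))
      = cos (k * t) * (F (rho x) * cos (k * x)) - sin (k * t) * (F (rho x) * sin (k * x)) := by
    intro x
    rw [mul_add, cos_add]
    ring
  simp_rw [h3]
  rw [intervalIntegral.integral_sub, intervalIntegral.integral_const_mul,
    intervalIntegral.integral_const_mul, IcF hF, IsF hF]
  · ring
  · apply Continuous.intervalIntegrable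
    exact continuous_const.mul ((G_cont hF).mul (by fun_prop))
  · apply Continuous.intervalIntegrable
    exact continuous_const.mul ((G_cont hF).mul (by fun_prop))

theorem Is_shiftF (hF : Profile F) (k : ℕ) (t : ℝ) :
    ∫ x in (0 : ℝ)..(2 * π), F (rho (x - t)) * sin (k * x) = π * cf F k * sin (k * t) := by
  have h1 : ∫ x in (0 : ℝ)..(2 * π), F (rho (x - t)) * sin (k * x)
      = ∫ x in (-t)..(2 * π - t), F (rho x) * sin (k * (x + t)) := by
    have := intervalIntegral.integral_comp_sub_right (a := 0) (b := 2 * π)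
      (fun x => F (rho x) * sin (k * (x + t))) t
    rw [zero_sub] at this
    rw [← this]
    apply intervalIntegral.integral_congr
    intro x _
    simp
  have hper : Function.Periodic (fun x => F (rho x) * sin (k * (x + t))) (2 * π) := by
    intro x
    simp only
    rw [rho_periodic x]
    congr 1
    have : (k : ℝ) * (x + 2 * π + t) = k * (x + t) + k * (2 * π) := by ring
    rw [this, sin_add_nat_mul_two_pi]
  have h2 := hper.intervalIntegral_add_eq (-t) 0
  rw [h1, show 2 * π - t = -t + 2 * π by ring, h2, zero_add]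
  have h3 : ∀ x, F (rho x) * sin (k * (x + t))
      = cos (k * t) * (F (rho x) * sin (k * x)) + sin (k * t) * (F (rho x) * cos (k * x)) := by
    intro x
    rw [mul_add, sin_add]
    ring
  simp_rw [h3]
  rw [intervalIntegral.integral_add, intervalIntegral.integral_const_mul,
    intervalIntegral.integral_const_mul, IcF hF, IsF hF]
  · ring
  · apply Continuous.intervalIntegrable
    exact continuous_const.mul ((G_cont hF).mul (by fun_prop))
  · apply Continuous.intervalIntegrable
    exact continuous_const.mul ((G_cont hF).mul (by fun_prop))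

/-- The values at the sample point `j` of `F (dist (·, t))`. -/
noncomputable def sampF (F : ℝ → ℝ) (N : ℕ) (t : ℝ) (j : ℕ) : ℝ := F (rho (π * j / N - t))

theorem fc_sampF (hF : Profile F) {N k : ℕ} (hN : 0 < N) (t : ℝ) :
    |fc N (sampF F N t) k - cf F k * cos (k * t)| ≤ 2 * π * (1 + π * k) / N := by
  have hNr : (0 : ℝ) < N := by exact_mod_cast hN
  set φ : ℝ → ℝ := fun x => F (rho (x - t)) * cos (k * x) with hφ
  have hφc : Continuous φ := ((G_cont hF).comp (by fun_prop : Continuous fun x => x - t)).mul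
    (by fun_prop)
  have hL : ∀ x y, |φ x - φ y| ≤ (1 + π * k) * |x - y| := by
    intro x y
    have e1 : φ x - φ y = (F (rho (x - t)) - F (rho (y - t))) * cos (k * x)
        + F (rho (y - t)) * (cos (k * x) - cos (k * y)) := by simp only [hφ]; ring
    rw [e1]
    refine (abs_add_le _ _).trans ?_
    rw [abs_mul, abs_mul]
    have e2 : |F (rho (x - t)) - F (rho (y - t))| ≤ |x - y| := by
      have := G_lip hF (x - t) (y - t)
      simpa using this
    have e3 : |cos (k * x)| ≤ 1 := abs_cos_le_one _
    have e4 : |F (rho (y - t))| ≤ π := G_abs hF _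
    have e5 : |cos (k * x) - cos (k * y)| ≤ k * |x - y| := by
      refine (abs_cos_sub_cos_le _ _).trans (le_of_eq ?_)
      rw [← mul_sub, abs_mul, Nat.abs_cast]
    have e6 := mul_le_mul e2 e3 (abs_nonneg _) (abs_nonneg _)
    have e7 := mul_le_mul e4 e5 (abs_nonneg _) pi_pos.le
    nlinarith
  have h1 := riemann_error φ hφc (1 + π * k) (π / N) (by positivity) (by positivity) hL (2 * N)
  have h2 : ((2 * N : ℕ) : ℝ) * (π / N) = 2 * π := by
    push_cast; field_simp
  rw [h2] at h1
  rw [Ic_shiftF hF k t] at h1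
  have h3 : (∑ j ∈ range (2 * N), φ (j * (π / N))) * (π / N) = π * fc N (sampF F N t) k := by
    unfold fc sampF
    have : ∀ j : ℕ, (j : ℝ) * (π / N) = π * j / N := by intro j; ring
    simp only [hφ, this]
    ring
  rw [h3] at h1
  have h4 : π * fc N (sampF F N t) k - π * cf F k * cos (k * t)
      = π * (fc N (sampF F N t) k - cf F k * cos (k * t)) := by ring
  rw [h4, abs_mul, abs_of_pos pi_pos] at h1
  have h5 : ((2 * N : ℕ) : ℝ) * ((1 + π * k) * (π / N) * (π / N))
      = π * (2 * π * (1 + π * k) / N) := by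
    push_cast; field_simp
  rw [h5] at h1
  exact le_of_mul_le_mul_left h1 pi_pos

theorem fs_sampF (hF : Profile F) {N k : ℕ} (hN : 0 < N) (t : ℝ) :
    |fs N (sampF F N t) k - cf F k * sin (k * t)| ≤ 2 * π * (1 + π * k) / N := by
  have hNr : (0 : ℝ) < N := by exact_mod_cast hN
  set φ : ℝ → ℝ := fun x => F (rho (x - t)) * sin (k * x) with hφ
  have hφc : Continuous φ := ((G_cont hF).comp (by fun_prop : Continuous fun x => x - t)).mul
    (by fun_prop)
  have hL : ∀ x y, |φ x - φ y| ≤ (1 + π * k) * |x - y| := by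
    intro x y
    have e1 : φ x - φ y = (F (rho (x - t)) - F (rho (y - t))) * sin (k * x)
        + F (rho (y - t)) * (sin (k * x) - sin (k * y)) := by simp only [hφ]; ring
    rw [e1]
    refine (abs_add_le _ _).trans ?_
    rw [abs_mul, abs_mul]
    have e2 : |F (rho (x - t)) - F (rho (y - t))| ≤ |x - y| := by
      have := G_lip hF (x - t) (y - t)
      simpa using this
    have e3 : |sin (k * x)| ≤ 1 := abs_sin_le_one _
    have e4 : |F (rho (y - t))| ≤ π := G_abs hF _
    have e5 : |sin (k * x) - sin (k * y)| ≤ k * |x - y| := by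
      refine (abs_sin_sub_sin_le _ _).trans (le_of_eq ?_)
      rw [← mul_sub, abs_mul, Nat.abs_cast]
    have e6 := mul_le_mul e2 e3 (abs_nonneg _) (abs_nonneg _)
    have e7 := mul_le_mul e4 e5 (abs_nonneg _) pi_pos.le
    nlinarith
  have h1 := riemann_error φ hφc (1 + π * k) (π / N) (by positivity) (by positivity) hL (2 * N)
  have h2 : ((2 * N : ℕ) : ℝ) * (π / N) = 2 * π := by
    push_cast; field_simp
  rw [h2] at h1
  rw [Is_shiftF hF k t] at h1
  have h3 : (∑ j ∈ range (2 * N), φ (j * (π / N))) * (π / N) = π * fs N (sampF F N t) k := by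
    unfold fs sampF
    have : ∀ j : ℕ, (j : ℝ) * (π / N) = π * j / N := by intro j; ring
    simp only [hφ, this]
    ring
  rw [h3] at h1
  have h4 : π * fs N (sampF F N t) k - π * cf F k * sin (k * t)
      = π * (fs N (sampF F N t) k - cf F k * sin (k * t)) := by ring
  rw [h4, abs_mul, abs_of_pos pi_pos] at h1
  have h5 : ((2 * N : ℕ) : ℝ) * ((1 + π * k) * (π / N) * (π / N))
      = π * (2 * π * (1 + π * k) / N) := by
    push_cast; field_simp
  rw [h5] at h1
  exact le_of_mul_le_mul_left h1 pi_pos

end Pool.Agent.Q146.FAF
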